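import Pool.Agent.Run7.h739.Sym

/-!
For every `d ≥ 4`, property (R) fails for all sufficiently large `k`.
-/

namespace Pool.Agent.Results.MP_166b83_co.FailsForLargeK

/-- `P` is a convex `d`-polytope: the convex hull of finitely many points of `ℝ^d`, with nonempty
interior. -/
def IsConvexPolytope {d : ℕ} (P : Set (EuclideanSpace ℝ (Fin d))) : Prop :=
  (∃ s : Finset (EuclideanSpace ℝ (Fin d)),
      P = convexHull ℝ (s : Set (EuclideanSpace ℝ (Fin d)))) ∧ (interior P).Nonempty

/-- The face lattice of `P`: its (exposed) faces, the empty face and `P` itself included, ordered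
by inclusion. -/
abbrev FaceLattice {d : ℕ} (P : Set (EuclideanSpace ℝ (Fin d))) : Type :=
  {F : Set (EuclideanSpace ℝ (Fin d)) // IsExposed ℝ P F}

/-- `P` is combinatorially `k`-orbit: the group of all order automorphisms of the face lattice has
exactly `k` orbits on the set of flags (maximal chains) of the face lattice. -/
def CombinatoriallyOrbit (k : ℕ) {d : ℕ} (P : Set (EuclideanSpace ℝ (Fin d))) : Prop :=
  Nat.card (MulAction.orbitRel.Quotient (FaceLattice P ≃o FaceLattice P)
    (Flag (FaceLattice P))) = k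

/-- The orbit of the flag `A` of `P` under the symmetries of `P`, the isometries `g` of `ℝ^d` with
`g(P) = P`: all flags `B` whose faces are the images of the faces of `A` under a symmetry. -/
def flagOrbit {d : ℕ} (P : Set (EuclideanSpace ℝ (Fin d))) (A : Flag (FaceLattice P)) :
    Set (Flag (FaceLattice P)) :=
  {B | ∃ g : EuclideanSpace ℝ (Fin d) ≃ᵢ EuclideanSpace ℝ (Fin d), g '' P = P ∧
    (fun F : FaceLattice P => g '' F.1) '' (A : Set (FaceLattice P)) =
      (fun F : FaceLattice P => F.1) '' (B : Set (FaceLattice P))}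

/-- `P` is geometrically `k`-orbit: the symmetries of `P` have exactly `k` orbits on the set of
flags of `P`. -/
def GeometricallyOrbit (k : ℕ) {d : ℕ} (P : Set (EuclideanSpace ℝ (Fin d))) : Prop :=
  (Set.range (flagOrbit P)).ncard = k

/-- Property (R) of the pair `(k, d)`: every combinatorially `k`-orbit convex `d`-polytope is
isomorphic to some geometrically `k`-orbit convex `d`-polytope. -/
def PropertyR (k d : ℕ) : Prop :=
  ∀ P : Set (EuclideanSpace ℝ (Fin d)), IsConvexPolytope P → CombinatoriallyOrbit k P →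
    ∃ Q : Set (EuclideanSpace ℝ (Fin d)), IsConvexPolytope Q ∧
      Nonempty (FaceLattice P ≃o FaceLattice Q) ∧ GeometricallyOrbit k Q

/-- For every `d ≥ 4`, property (R) fails for all sufficiently large `k`. -/
theorem result (d : ℕ) (hd : 4 ≤ d) : ∃ K : ℕ, ∀ k, K ≤ k → ¬ PropertyR k d := by
  obtain ⟨K, hK⟩ := Run7.h739.main_all d hd
  refine ⟨K, fun k hk hR => hK k hk ?_⟩
  intro P hP hc
  obtain ⟨Q, h1, h2, h3⟩ := hR P hP hc
  exact ⟨Q, h1, h2, (Run7.h739.card_flagOrbit Q).symm.trans h3⟩

end Pool.Agent.Results.MP_166b83_co.FailsForLargeK
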