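import Pool.Agent.Run7.h249.Geo6

/-!
Property (R) for all pairs `(k, d)` with `d ≥ 337` and `2 ≤ k ≤ (25 d - 409) / 24`, except possibly
`k = d - 2, d - 1, d, d + 1`.
-/

namespace Pool.Agent.Results.MP_166b83_co.ManyPairs

/-- `P` is a convex `d`-polytope: the convex hull of finitely many points of `𝔼^d`, with nonempty
interior. -/
def IsConvexPolytope {d : ℕ} (P : Set (EuclideanSpace ℝ (Fin d))) : Prop :=
  (∃ s : Finset (EuclideanSpace ℝ (Fin d)),
      P = convexHull ℝ (s : Set (EuclideanSpace ℝ (Fin d)))) ∧ (interior P).Nonempty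

/-- The face lattice of `P`: its (exposed) faces, the empty face and `P` itself included, ordered
by inclusion. -/
abbrev FaceLattice {d : ℕ} (P : Set (EuclideanSpace ℝ (Fin d))) : Type :=
  {F : Set (EuclideanSpace ℝ (Fin d)) // IsExposed ℝ P F}

/-- `P` is combinatorially `k`-orbit: the group of all order automorphisms of the face lattice has
exactly `k` orbits on the set of flags (maximal chains) of the face lattice. -/
def CombinatoriallyOrbit {d : ℕ} (P : Set (EuclideanSpace ℝ (Fin d))) (k : ℕ) : Prop :=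
  Nat.card (MulAction.orbitRel.Quotient (FaceLattice P ≃o FaceLattice P)
    (Flag (FaceLattice P))) = k

/-- Two flags of `P` are in the same orbit of the symmetry group `G(P)` of all isometries of `𝔼^d`
mapping `P` onto itself. -/
def SameOrbit {d : ℕ} (P : Set (EuclideanSpace ℝ (Fin d))) (c c' : Flag (FaceLattice P)) : Prop :=
  ∃ g : EuclideanSpace ℝ (Fin d) ≃ᵢ EuclideanSpace ℝ (Fin d), g '' P = P ∧
    ∀ F F' : FaceLattice P, (F' : Set (EuclideanSpace ℝ (Fin d))) = g '' F → (F ∈ c ↔ F' ∈ c')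

/-- `P` is geometrically `k`-orbit: `G(P)` has exactly `k` orbits on the flags of `P`. -/
def GeometricallyOrbit {d : ℕ} (P : Set (EuclideanSpace ℝ (Fin d))) (k : ℕ) : Prop :=
  Nat.card (Quot (SameOrbit P)) = k

/-- Property (R): every combinatorially `k`-orbit convex `d`-polytope is isomorphic to some
geometrically `k`-orbit convex `d`-polytope. -/
def PropertyR (k d : ℕ) : Prop :=
  ∀ P : Set (EuclideanSpace ℝ (Fin d)), IsConvexPolytope P → CombinatoriallyOrbit P k →
    ∃ Q : Set (EuclideanSpace ℝ (Fin d)), IsConvexPolytope Q ∧ GeometricallyOrbit Q k ∧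
      Nonempty (FaceLattice P ≃o FaceLattice Q)

/-- The pair `(k, d)` has property (R) if `d ≥ 337`, `2 ≤ k ≤ (25 d - 409) / 24` and `k` is none of
`d - 2, d - 1, d, d + 1`. -/
theorem result (k d : ℕ) (hd : 337 ≤ d) (hk : 2 ≤ k) (hkd : 24 * k + 409 ≤ 25 * d)
    (h1 : k + 2 ≠ d) (h2 : k + 1 ≠ d) (h3 : k ≠ d) (h4 : k ≠ d + 1) : PropertyR k d := by
  intro P hP h
  exfalso
  have h5 := Run7.h249.gap_poly (E := EuclideanSpace ℝ (Fin d)) hP.1 hP.2 hk h
    (by rw [finrank_euclideanSpace_fin]; exact hd)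
    (by rw [finrank_euclideanSpace_fin]; exact hkd)
  rw [finrank_euclideanSpace_fin] at h5
  omega

end Pool.Agent.Results.MP_166b83_co.ManyPairs
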